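import Mathlib

/-!
# A matroid whose top h-number cannot be lowered by one inside its family of bases

The matroid is the cycle matroid of the complete graph on four vertices.
-/

namespace Pool.Agent.Results.MP_35fef3_co.CycleK4

open Set

/-- `numIndep M i` is the number `f_{i-1}(M)` of independent sets of `M` of size `i`. -/
noncomputable def numIndep {α : Type*} (M : Matroid α) (i : ℕ) : ℕ :=
  {I : Set α | M.Indep I ∧ I.ncard = i}.ncard

/-- `hTop M d` is `∑_{i=0}^{d} (-1)^{d-i} f_{i-1}(M)`, which for a matroid `M` of rank `d` is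
the top entry `h_d(M)` of its `h`-vector. -/
noncomputable def hTop {α : Type*} (M : Matroid α) (d : ℕ) : ℤ :=
  ∑ i ∈ Finset.range (d + 1), (-1 : ℤ) ^ (d - i) * (numIndep M i : ℤ)

/-! ### Coding subsets of `Fin 6` by numbers below `64` -/

/-- The subset of `Fin 6` coded by the binary digits of `m`. -/
def S (m : ℕ) : Set (Fin 6) := {i | m.testBit i = true}

lemma mem_S {m : ℕ} {i : Fin 6} : i ∈ S m ↔ m.testBit i = true := Iff.rfl

lemma S_inj {m m' : ℕ} (hm : m < 64) (hm' : m' < 64) (h : S m = S m') : m = m' := by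
  apply Nat.eq_of_testBit_eq
  intro i
  by_cases hi : i < 6
  · have h1 : (⟨i, hi⟩ : Fin 6) ∈ S m ↔ (⟨i, hi⟩ : Fin 6) ∈ S m' := by rw [h]
    simp only [mem_S] at h1
    rcases hb : m.testBit i with _ | _ <;> rcases hb' : m'.testBit i with _ | _ <;> simp_all
  · have hle : (64 : ℕ) ≤ 2 ^ i := by
      calc (64 : ℕ) = 2 ^ 6 := by norm_num
        _ ≤ 2 ^ i := Nat.pow_le_pow_right (by norm_num) (by omega)
    rw [Nat.testBit_lt_two_pow (lt_of_lt_of_le hm hle),
      Nat.testBit_lt_two_pow (lt_of_lt_of_le hm' hle)]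

lemma S_surj (B : Set (Fin 6)) : ∃ m < 64, S m = B := by
  classical
  refine ⟨Nat.ofBits (fun i : Fin 6 => decide (i ∈ B)), Nat.ofBits_lt_two_pow _, ?_⟩
  ext i
  rw [mem_S, Nat.testBit_ofBits_lt _ _ i.isLt]
  simp

/-- Number of binary digits `1` of `m` among the lowest six. -/
def pc (m : ℕ) : ℕ :=
  (((((m.testBit 0).toNat + (m.testBit 1).toNat) + (m.testBit 2).toNat) +
    (m.testBit 3).toNat) + (m.testBit 4).toNat) + (m.testBit 5).toNat

lemma S_ncard (m : ℕ) : (S m).ncard = pc m := by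
  classical
  have h : S m = ((Finset.univ.filter (fun i : Fin 6 => m.testBit i = true) :
      Finset (Fin 6)) : Set (Fin 6)) := by
    ext i; simp [mem_S]
  rw [h, Set.ncard_coe_finset, Finset.card_filter]
  simp only [Fin.sum_univ_six, pc]
  simp only [Bool.toNat, Bool.cond_eq_ite]
  rfl

/-! ### The matroid -/

/-- The codes of the sixteen spanning trees of the complete graph on four vertices, with edges
`01, 02, 03, 12, 13, 23` numbered `0, …, 5`. -/
def mk (j : ℕ) : ℕ :=
  [7, 13, 14, 19, 22, 25, 26, 28, 35, 37, 41, 42, 44, 49, 50, 52].getD j 0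

lemma mk_lt : ∀ j < 16, mk j < 64 := by decide

lemma mk_inj : ∀ j < 16, ∀ j' < 16, mk j = mk j' → j = j' := by decide

/-- Code of the result of exchanging `i` for `l`. -/
def ex (m i l : ℕ) : ℕ := (m ^^^ 2 ^ i) ||| 2 ^ l

lemma S_ex {m : ℕ} {i l : Fin 6} (hi : i ∈ S m) (hl : l ∉ S m) :
    S (ex m i l) = insert l (S m \ {i}) := by
  ext x
  simp only [mem_S, ex, Nat.testBit_or, Nat.testBit_xor, Nat.testBit_two_pow, mem_insert_iff,
    mem_sdiff, mem_singleton_iff] at hi hl ⊢
  by_cases hx : x = l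
  · subst hx; simp
  · have hx' : ¬ ((l : ℕ) = (x : ℕ)) := fun h => hx (Fin.ext h.symm)
    by_cases hxi : x = i
    · subst hxi; simp [hi, hx, hx']
    · have hxi' : ¬ ((i : ℕ) = (x : ℕ)) := fun h => hxi (Fin.ext h.symm)
      simp [hx, hx', hxi, hxi']

lemma ex_lt : ∀ m < 64, ∀ i < 6, ∀ l < 6, ex m i l < 64 := by decide +kernel

lemma exch_M : ∀ j j' : Fin 16, ∀ i : Fin 6, (mk j).testBit i = true →
    (mk j').testBit i = false → ∃ l : Fin 6, (mk j').testBit l = true ∧
      (mk j).testBit l = false ∧ ∃ k : Fin 16, mk k = ex (mk j) i l := by decide +kernel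

/-- The cycle matroid of the complete graph on four vertices. -/
def MK4 : Matroid (Fin 6) :=
  Matroid.ofIsBaseOfFinite (E := univ) finite_univ
    (fun B => ∃ j < 16, S (mk j) = B)
    ⟨S (mk 0), 0, by norm_num, rfl⟩
    (by
      rintro _ _ ⟨j, hj, rfl⟩ ⟨j', hj', rfl⟩ i ⟨hi, hi'⟩
      have hi'' : (mk j').testBit i = false := by
        rcases hb : (mk j').testBit i with _ | _
        · rfl
        · exact absurd hb hi'
      obtain ⟨l, hl1, hl2, k, hk'⟩ := exch_M ⟨j, hj⟩ ⟨j', hj'⟩ i hi hi''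
      refine ⟨l, ⟨hl1, ?_⟩, k, k.isLt, ?_⟩
      · intro h
        rw [mem_S] at h
        simp [hl2] at h
      · rw [hk', ← S_ex (l := l) hi]
        intro h
        rw [mem_S] at h
        simp [hl2] at h)
    (fun B _ => subset_univ B)

lemma MK4_isBase (B : Set (Fin 6)) : MK4.IsBase B ↔ ∃ j < 16, S (mk j) = B := Iff.rfl

/-! ### Counting independent sets of a matroid from the code of its family of bases -/

/-- Is the set coded by `m` contained in a member of the family coded by `T`? -/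
def isInd (T m : ℕ) : Bool :=
  (List.range 16).any (fun j => T.testBit j && ((m &&& mk j) == m))

/-- Number of sets of size `i` contained in a member of the family coded by `T`. -/
def cnt (T i : ℕ) : ℕ :=
  ((List.range 64).filter (fun m => (pc m == i) && isInd T m)).length

lemma S_subset {m m' : ℕ} (hm : m < 64) : S m ⊆ S m' ↔ m &&& m' = m := by
  constructor
  · intro h
    apply Nat.eq_of_testBit_eq
    intro i
    rw [Nat.testBit_and]
    by_cases hi : i < 6
    · have h1 := @h ⟨i, hi⟩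
      simp only [mem_S] at h1
      rcases hb : m.testBit i with _ | _
      · simp
      · simp [h1 hb]
    · have hle : (64 : ℕ) ≤ 2 ^ i := by
        calc (64 : ℕ) = 2 ^ 6 := by norm_num
          _ ≤ 2 ^ i := Nat.pow_le_pow_right (by norm_num) (by omega)
      rw [Nat.testBit_lt_two_pow (lt_of_lt_of_le hm hle)]
      simp
  · intro h i hi
    rw [mem_S] at hi ⊢
    rw [← h, Nat.testBit_and] at hi
    simp only [Bool.and_eq_true] at hi
    exact hi.2

/-- The code of the family of bases of `N`, as a subset of the sixteen bases of `MK4`. -/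
noncomputable def code (N : Matroid (Fin 6)) : ℕ :=
  open Classical in Nat.ofBits (fun j : Fin 16 => decide (N.IsBase (S (mk j))))

lemma code_testBit (N : Matroid (Fin 6)) (j : ℕ) (hj : j < 16) :
    (code N).testBit j = true ↔ N.IsBase (S (mk j)) := by
  classical
  rw [code, Nat.testBit_ofBits_lt _ _ hj]
  simp

lemma code_lt (N : Matroid (Fin 6)) : code N < 2 ^ 16 := Nat.ofBits_lt_two_pow _

lemma indep_iff (N : Matroid (Fin 6)) (hN : ∀ B, N.IsBase B → MK4.IsBase B) (m : ℕ)
    (hm : m < 64) : N.Indep (S m) ↔ isInd (code N) m = true := by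
  rw [Matroid.indep_iff]
  simp only [isInd, List.any_eq_true, List.mem_range, Bool.and_eq_true, beq_iff_eq]
  constructor
  · rintro ⟨B, hB, hmB⟩
    obtain ⟨j, hj, rfl⟩ := (MK4_isBase B).1 (hN B hB)
    exact ⟨j, hj, (code_testBit N j hj).2 hB, (S_subset hm).1 hmB⟩
  · rintro ⟨j, hj, h1, h2⟩
    exact ⟨S (mk j), (code_testBit N j hj).1 h1, (S_subset hm).2 h2⟩

lemma numIndep_eq (N : Matroid (Fin 6)) (hN : ∀ B, N.IsBase B → MK4.IsBase B) (i : ℕ) :
    numIndep N i = cnt (code N) i := by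
  have h1 : {I : Set (Fin 6) | N.Indep I ∧ I.ncard = i} =
      S '' (((Finset.range 64).filter
        (fun m => ((pc m == i) && isInd (code N) m) = true) : Finset ℕ) : Set ℕ) := by
    ext I
    simp only [mem_ofPred_eq, mem_image, Finset.coe_filter, Finset.mem_range, Bool.and_eq_true,
      beq_iff_eq]
    constructor
    · rintro ⟨hI, hc⟩
      obtain ⟨m, hm, rfl⟩ := S_surj I
      rw [S_ncard] at hc
      exact ⟨m, ⟨hm, hc, (indep_iff N hN m hm).1 hI⟩, rfl⟩
    · rintro ⟨m, ⟨hm, hc, hI⟩, rfl⟩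
      exact ⟨(indep_iff N hN m hm).2 hI, by rw [S_ncard]; exact hc⟩
  rw [numIndep, h1, Set.InjOn.ncard_image, Set.ncard_coe_finset]
  · rw [Finset.card_def, Finset.filter_val, Finset.range_val, ← Multiset.coe_range,
      Multiset.filter_coe, Multiset.coe_card, cnt]
    congr 2
    ext m
    by_cases h : pc m = i <;> simp [h]
  · intro m hm m' hm' h
    simp only [Finset.coe_filter, Finset.mem_range, mem_ofPred_eq] at hm hm'
    exact S_inj hm.1 hm'.1 h

/-! ### The search through all subfamilies -/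

/-- Instances `(j, j', i, s)` of basis exchange: if the bases numbered `j` and `j'` are in the
family then so is one of the bases whose numbers are the binary digits of `s`. -/
def cons : List (ℕ × ℕ × ℕ × ℕ) :=
  [(5, 0, 4, 2), (5, 0, 3, 8), (0, 6, 2, 8), (0, 7, 1, 2), (0, 10, 2, 256), (11, 0, 5, 4),
  (11, 0, 3, 256), (0, 12, 0, 4), (0, 13, 1, 512), (0, 14, 0, 16), (15, 0, 5, 16),
  (15, 0, 4, 512), (3, 1, 1, 32), (3, 1, 4, 1), (1, 4, 3, 1), (1, 6, 2, 32), (1, 8, 2, 1024),
  (1, 11, 2, 1024), (1, 13, 3, 512), (1, 14, 0, 4228), (1, 14, 2, 1056), (1, 14, 3, 513),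
  (1, 15, 3, 512), (2, 3, 2, 64), (2, 5, 2, 64), (8, 2, 0, 2048), (8, 2, 5, 1), (2, 9, 3, 1),
  (2, 10, 2, 2048), (2, 13, 1, 4226), (2, 13, 2, 2112), (2, 13, 3, 17), (2, 14, 3, 16),
  (2, 15, 3, 16), (3, 2, 4, 1), (3, 7, 1, 32), (3, 9, 1, 8192), (3, 10, 4, 256),
  (3, 11, 4, 256), (3, 12, 0, 16464), (3, 12, 1, 8224), (3, 12, 4, 257), (3, 15, 1, 8192),
  (4, 1, 1, 128), (4, 5, 1, 128), (4, 8, 4, 1), (9, 4, 0, 32768), (9, 4, 5, 1),
  (4, 10, 1, 32896), (4, 10, 2, 16456), (4, 10, 4, 5), (4, 11, 4, 4), (4, 12, 4, 4),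
  (4, 13, 1, 32768), (5, 2, 4, 2), (5, 4, 3, 8), (5, 8, 4, 1024), (5, 9, 3, 8192),
  (11, 5, 5, 64), (11, 5, 1, 1024), (5, 12, 0, 128), (5, 14, 0, 64), (15, 5, 5, 128),
  (15, 5, 2, 8192), (6, 0, 4, 4), (6, 1, 4, 4), (6, 8, 4, 2048), (6, 9, 1, 160),
  (6, 9, 3, 16408), (6, 9, 4, 2052), (10, 6, 5, 32), (10, 6, 0, 2048), (6, 12, 1, 128),
  (6, 13, 1, 32), (6, 15, 1, 128), (7, 0, 3, 16), (7, 3, 3, 16), (7, 8, 2, 96),
  (7, 8, 3, 32784), (7, 8, 4, 4102), (7, 9, 3, 32768), (7, 10, 2, 32), (7, 11, 2, 64),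
  (13, 7, 5, 32), (13, 7, 0, 32768), (7, 14, 2, 64), (8, 1, 5, 1), (8, 4, 0, 16384),
  (8, 5, 5, 8), (8, 6, 5, 8), (8, 7, 0, 18432), (8, 7, 1, 9728), (8, 7, 5, 9),
  (8, 12, 0, 2048), (8, 15, 0, 16384), (9, 2, 0, 4096), (9, 3, 5, 1), (9, 5, 5, 2),
  (9, 6, 0, 36864), (9, 6, 2, 9472), (9, 6, 5, 3), (9, 7, 5, 2), (9, 11, 0, 4096),
  (9, 14, 0, 32768), (10, 0, 5, 2), (10, 2, 5, 2), (10, 3, 5, 32), (10, 4, 0, 6144),
  (10, 4, 3, 8960), (10, 4, 5, 34), (10, 7, 0, 4096), (10, 14, 0, 2048), (10, 15, 0, 4096),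
  (11, 1, 5, 4), (11, 3, 5, 64), (11, 4, 3, 16384), (11, 7, 1, 4096), (11, 9, 3, 256),
  (11, 13, 1, 1024), (15, 11, 4, 4096), (15, 11, 2, 16384), (12, 0, 3, 512), (12, 3, 2, 3072),
  (12, 3, 3, 33280), (12, 3, 5, 134), (12, 4, 3, 32768), (12, 5, 2, 1024), (12, 6, 2, 2048),
  (12, 8, 3, 512), (12, 13, 2, 1024), (14, 12, 4, 2048), (14, 12, 1, 32768), (13, 0, 5, 8),
  (13, 1, 5, 32), (13, 2, 0, 49152), (13, 2, 4, 1792), (13, 2, 5, 40), (13, 4, 5, 8),
  (13, 6, 0, 16384), (13, 11, 0, 16384), (13, 12, 0, 32768), (14, 0, 4, 256),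
  (14, 1, 1, 40960), (14, 1, 4, 2304), (14, 1, 5, 88), (14, 2, 4, 2048), (14, 5, 1, 8192),
  (14, 7, 1, 32768), (14, 9, 4, 256), (14, 10, 1, 8192), (15, 1, 5, 128), (15, 2, 4, 4096),
  (15, 3, 5, 16), (15, 6, 2, 16384), (15, 8, 4, 512), (15, 10, 2, 8192)]

/-- The partial family (members `T`, non-members `F`) violates an exchange condition. -/
def viol (T F : ℕ) : Bool :=
  cons.any (fun c => T.testBit c.1 && T.testBit c.2.1 && (F &&& c.2.2.2 == c.2.2.2))

/-- The final check. -/
def good (T : ℕ) : Bool := !(cnt T 3 + cnt T 1 == 5 + cnt T 2 + cnt T 0)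

/-- The search, deciding the membership of base `k-1`, then `k-2`, and so on. -/
def search : ℕ → ℕ → ℕ → Bool
  | 0, T, F => viol T F || good T
  | k + 1, T, F => viol T F || (search k (T ||| 2 ^ k) F && search k T (F ||| 2 ^ k))

lemma cons_spec : ∀ c ∈ cons, c.1 < 16 ∧ c.2.1 < 16 ∧ c.2.2.1 < 6 ∧
    (mk c.1).testBit c.2.2.1 = true ∧ (mk c.2.1).testBit c.2.2.1 = false ∧
    ∀ l < 6, (mk c.2.1).testBit l = true → (mk c.1).testBit l = false →
      ∀ k < 16, mk k = ex (mk c.1) c.2.2.1 l → c.2.2.2.testBit k = true := by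
  decide +kernel

lemma cons_bound : ∀ c ∈ cons, c.2.2.2 < 65536 := by decide +kernel

/-- `U` satisfies the exchange conditions. -/
def Sat (U : ℕ) : Prop :=
  ∀ c ∈ cons, U.testBit c.1 = true → U.testBit c.2.1 = true →
    ∃ k, c.2.2.2.testBit k = true ∧ U.testBit k = true

lemma viol_false {U T F : ℕ} (hU : Sat U) (hT : ∀ i, T.testBit i = true → U.testBit i = true)
    (hF : ∀ i, F.testBit i = true → U.testBit i = false) : viol T F = false := by
  by_contra h
  rw [Bool.not_eq_false] at h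
  simp only [viol, List.any_eq_true, Bool.and_eq_true, beq_iff_eq] at h
  obtain ⟨c, hc, ⟨h1, h2⟩, h3⟩ := h
  obtain ⟨k, hk1, hk2⟩ := hU c hc (hT _ h1) (hT _ h2)
  have h4 : (F &&& c.2.2.2).testBit k = true := by rw [h3]; exact hk1
  rw [Nat.testBit_and, Bool.and_eq_true] at h4
  have h5 := hF k h4.1
  rw [hk2] at h5
  exact Bool.noConfusion h5

lemma search_sound {U : ℕ} (hU : Sat U) : ∀ (k T F : ℕ),
    search k T F = true → (∀ i, T.testBit i = true ↔ k ≤ i ∧ U.testBit i = true) →
    (∀ i, F.testBit i = true → U.testBit i = false) → good U = true := by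
  intro k
  induction k with
  | zero =>
    intro T F h hT hF
    have hv : viol T F = false := viol_false hU (fun i hi => ((hT i).1 hi).2) hF
    rw [search, hv, Bool.false_or] at h
    have : T = U := by
      apply Nat.eq_of_testBit_eq
      intro i
      have := hT i
      rcases hb : T.testBit i with _ | _ <;> rcases hb' : U.testBit i with _ | _ <;> simp_all
    rwa [this] at h
  | succ k ih =>
    intro T F h hT hF
    have hv : viol T F = false := viol_false hU (fun i hi => ((hT i).1 hi).2) hF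
    rw [search, hv, Bool.false_or, Bool.and_eq_true] at h
    rcases hb : U.testBit k with _ | _
    · refine ih T (F ||| 2 ^ k) h.2 ?_ ?_
      · intro i
        rw [hT i]
        constructor
        · rintro ⟨h1, h2⟩; exact ⟨by omega, h2⟩
        · rintro ⟨h1, h2⟩
          refine ⟨?_, h2⟩
          by_contra hlt
          have : i = k := by omega
          subst this
          rw [hb] at h2
          exact Bool.noConfusion h2
      · intro i hi
        rw [Nat.testBit_or, Bool.or_eq_true] at hi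
        rcases hi with hi | hi
        · exact hF i hi
        · rw [Nat.testBit_two_pow] at hi
          have : k = i := by simpa using hi
          subst this
          exact hb
    · refine ih (T ||| 2 ^ k) F h.1 ?_ hF
      intro i
      rw [Nat.testBit_or, Bool.or_eq_true, hT i, Nat.testBit_two_pow]
      constructor
      · rintro (⟨h1, h2⟩ | h1)
        · exact ⟨by omega, h2⟩
        · have : k = i := by simpa using h1
          subst this
          exact ⟨le_rfl, hb⟩
      · rintro ⟨h1, h2⟩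
        by_cases hki : k = i
        · right; simp [hki]
        · left; exact ⟨by omega, h2⟩

lemma search_true : search 16 0 0 = true := by decide +kernel

lemma good_of_sat {U : ℕ} (hU : Sat U) (hU16 : U < 2 ^ 16) : good U = true := by
  refine search_sound hU 16 0 0 search_true ?_ ?_
  · intro i
    constructor
    · intro h; simp at h
    · rintro ⟨h1, h2⟩
      exfalso
      rw [Nat.testBit_lt_two_pow (lt_of_lt_of_le hU16
        (Nat.pow_le_pow_right (by norm_num) h1))] at h2
      exact Bool.noConfusion h2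
  · intro i h; simp at h

lemma code_sat (N : Matroid (Fin 6)) (hN : ∀ B, N.IsBase B → MK4.IsBase B) :
    Sat (code N) := by
  rintro ⟨j, j', i, s⟩ hc h1 h2
  obtain ⟨hj, hj', hi, hb, hb', hs⟩ := cons_spec _ hc
  simp only at hj hj' hi hb hb' hs h1 h2 ⊢
  have hB := (code_testBit N j hj).1 h1
  have hB' := (code_testBit N j' hj').1 h2
  have hmem : (⟨i, hi⟩ : Fin 6) ∈ S (mk j) \ S (mk j') := by
    refine ⟨hb, ?_⟩
    intro h
    rw [mem_S] at h
    simp only at h
    rw [hb'] at h
    exact Bool.noConfusion h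
  obtain ⟨l, ⟨hl, hl'⟩, hbase⟩ := hB.exchange hB' hmem
  have hlf : (mk j).testBit l = false := by
    rcases hbb : (mk j).testBit l with _ | _
    · rfl
    · exact absurd hbb hl'
  rw [← S_ex hb hl'] at hbase
  obtain ⟨k, hk, hk'⟩ := (MK4_isBase _).1 (hN _ hbase)
  have hk'' : mk k = ex (mk j) i l :=
    S_inj (mk_lt k hk) (ex_lt _ (mk_lt j hj) i hi l l.isLt) hk'
  refine ⟨k, hs l l.isLt hl hlf k hk hk'', ?_⟩
  rw [code_testBit N k hk, hk']
  exact hbase

lemma hTop_three (N : Matroid (Fin 6)) :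
    hTop N 3 = numIndep N 3 - numIndep N 2 + numIndep N 1 - numIndep N 0 := by
  simp only [hTop, Finset.sum_range_succ, Finset.sum_range_zero]
  norm_num
  ring

lemma code_MK4 : code MK4 = 65535 := by
  apply Nat.eq_of_testBit_eq
  intro i
  by_cases hi : i < 16
  · have h1 : (code MK4).testBit i = true := by
      rw [code_testBit _ _ hi, MK4_isBase]
      exact ⟨i, hi, rfl⟩
    rw [h1]
    have h2 : ∀ i < 16, true = Nat.testBit 65535 i := by decide
    exact h2 i hi
  · have hle : (2 ^ 16 : ℕ) ≤ 2 ^ i := Nat.pow_le_pow_right (by norm_num) (by omega)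
    rw [Nat.testBit_lt_two_pow (lt_of_lt_of_le (code_lt _) hle),
      Nat.testBit_lt_two_pow (lt_of_lt_of_le (by norm_num) hle)]

lemma hTop_MK4 : hTop MK4 3 = 6 := by
  rw [hTop_three]
  simp only [numIndep_eq MK4 (fun _ h => h), code_MK4]
  have h3 : cnt 65535 3 = 16 := by decide +kernel
  have h2 : cnt 65535 2 = 15 := by decide +kernel
  have h1 : cnt 65535 1 = 6 := by decide +kernel
  have h0 : cnt 65535 0 = 1 := by decide +kernel
  rw [h3, h2, h1, h0]
  norm_num

/-- **The property asked for in Q1 fails.**  There are a number `d ≥ 1` and a simple matroid `M`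
of rank `d` (on six elements) with `h_d(M) ≥ 1` such that no subfamily of the bases of `M` is the
family of bases of a matroid `N` on the same ground set with `h_d(N) = h_d(M) - 1`. -/
theorem result : ∃ (d : ℕ) (M : Matroid (Fin 6)), 1 ≤ d ∧ M.E = univ ∧ M.eRank = d ∧
    (∀ I : Set (Fin 6), I.ncard ≤ 2 → M.Indep I) ∧ 1 ≤ hTop M d ∧
    ∀ N : Matroid (Fin 6), N.E = univ → (∀ B, N.IsBase B → M.IsBase B) →
      hTop N d ≠ hTop M d - 1 := by
  refine ⟨3, MK4, by norm_num, rfl, ?_, ?_, ?_, ?_⟩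
  · have hB : MK4.IsBase (S (mk 0)) := (MK4_isBase _).2 ⟨0, by norm_num, rfl⟩
    rw [← hB.encard_eq_eRank, ← (toFinite (S (mk 0))).cast_ncard_eq, S_ncard]
    have : pc (mk 0) = 3 := by decide
    rw [this]
  · intro I hI
    obtain ⟨m, hm, rfl⟩ := S_surj I
    rw [S_ncard] at hI
    rw [indep_iff MK4 (fun _ h => h) m hm, code_MK4]
    have h : ∀ m < 64, pc m ≤ 2 → isInd 65535 m = true := by decide +kernel
    exact h m hm hI
  · rw [hTop_MK4]; norm_num
  · intro N _ hN h
    rw [hTop_MK4, hTop_three] at h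
    simp only [numIndep_eq N hN] at h
    have hg := good_of_sat (code_sat N hN) (code_lt N)
    simp only [good, Bool.not_eq_true', beq_eq_false_iff_ne, ne_eq] at hg
    apply hg
    omega

end Pool.Agent.Results.MP_35fef3_co.CycleK4
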